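import Pool.Agent.H525.EX.Stm5

/-!
# EX/CMB: the combined array
-/

set_option autoImplicit false

namespace Pool.Agent.H914.EX

open Pool.Agent.H525.EX Finset

variable {g ε : ℝ} {u v : Arr}

theorem cmb00 (n e : ℤ) : cmb g u v (2 * n) (2 * e) = u n e := by
  unfold cmb
  rw [if_pos ⟨by omega, by omega⟩, show (2 * n) / 2 = n by omega, show (2 * e) / 2 = e by omega]

theorem cmb11 (n e : ℤ) : cmb g u v (2 * n + 1) (2 * e - 1) = g * v n e := by
  unfold cmb
  rw [if_neg (by omega), if_pos ⟨by omega, by omega⟩, show (2 * n + 1) / 2 = n by omega,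
    show (2 * e - 1 + 1) / 2 = e by omega]

theorem cmb_odd {N E : ℤ} (h : (N + E) % 2 = 1) : cmb g u v N E = 0 := by
  unfold cmb
  rw [if_neg (by omega), if_neg (by omega)]

theorem cases2 (P : ℤ → ℤ → Prop) (h00 : ∀ n e, P (2 * n) (2 * e))
    (h11 : ∀ n e, P (2 * n + 1) (2 * e - 1)) (ho : ∀ N E, (N + E) % 2 = 1 → P N E) (N E : ℤ) :
    P N E := by
  rcases Int.emod_two_eq_zero_or_one N with h1 | h1 <;>
    rcases Int.emod_two_eq_zero_or_one E with h2 | h2
  · have h := h00 (N / 2) (E / 2)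
    rwa [show 2 * (N / 2) = N by omega, show 2 * (E / 2) = E by omega] at h
  · exact ho N E (by omega)
  · exact ho N E (by omega)
  · have h := h11 (N / 2) ((E + 1) / 2)
    rwa [show 2 * (N / 2) + 1 = N by omega, show 2 * ((E + 1) / 2) - 1 = E by omega] at h

/-- reindexing of sums -/
theorem sum_two (F : ℤ → ℝ) (s a b A B : ℤ)
    (h1 : ∀ E, A ≤ E → E ≤ B → F E ≠ 0 → ∃ e, a ≤ e ∧ e ≤ b ∧ 2 * e + s = E)
    (h2 : ∀ e, a ≤ e → e ≤ b → F (2 * e + s) ≠ 0 → A ≤ 2 * e + s ∧ 2 * e + s ≤ B) :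
    ∑ E ∈ Icc A B, F E = ∑ e ∈ Icc a b, F (2 * e + s) := by
  have h3 : ∑ e ∈ Icc a b, F (2 * e + s) = ∑ E ∈ (Icc a b).image (fun e => 2 * e + s), F E := by
    rw [sum_image]
    intro x _ y _ hxy
    simp only at hxy
    omega
  rw [h3]
  apply sum_congr_of_eq_on_inter
  · intro E hE hE'
    by_contra h
    rw [mem_Icc] at hE
    obtain ⟨e, he1, he2, he3⟩ := h1 E hE.1 hE.2 h
    exact hE' (mem_image.2 ⟨e, mem_Icc.2 ⟨he1, he2⟩, he3⟩)
  · intro E hE hE'
    by_contra h
    obtain ⟨e, he, rfl⟩ := mem_image.1 hE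
    rw [mem_Icc] at he
    exact hE' (mem_Icc.2 (h2 e he.1 he.2 h))
  · intro _ _ _
    rfl

theorem eps_ne (hε : ε = 1 ∨ ε = -1) : ε ≠ 0 := by
  rcases hε with rfl | rfl <;> norm_num

theorem u_big (hε : ε = 1 ∨ ε = -1) {Q : ℝ} (h : Pr2 ε Q u v) {n e : ℤ} (he : 2 * n < e) :
    u n e = 0 := by
  have h1 := h.ua n (2 * n - e)
  rw [h.un (2 * n - e) _ (by omega), mul_zero, show 2 * n - (2 * n - e) = e by ring] at h1
  exact (mul_eq_zero.1 h1).resolve_left (zpow_ne_zero _ (eps_ne hε))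

theorem v_big (hε : ε = 1 ∨ ε = -1) {Q : ℝ} (h : Pr2 ε Q u v) {n e : ℤ} (he : 2 * n + 1 < e) :
    v n e = 0 := by
  have h1 := h.va n (2 * n + 1 - e)
  rw [h.vn (2 * n + 1 - e) _ (by omega), mul_zero,
    show 2 * n + 1 - (2 * n + 1 - e) = e by ring] at h1
  exact (mul_eq_zero.1 h1).resolve_left (zpow_ne_zero _ (eps_ne hε))

/-- sums over even rows -/
theorem sum_even (hε : ε = 1 ∨ ε = -1) {Q : ℝ} (h : Pr2 ε Q u v) (c : ℤ → ℝ) (n : ℤ) :
    ∑ E ∈ Icc (-(2 * n)) (2 * (2 * n)), c E * cmb g u v (2 * n) E =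
      ∑ e ∈ Icc (-n) (3 * n + 2), c (2 * e) * u n e := by
  have h1 := sum_two (fun E => c E * cmb g u v (2 * n) E) 0 (-n) (3 * n + 2) (-(2 * n))
    (2 * (2 * n)) (by
      intro E hE1 hE2 hE
      have h2 : cmb g u v (2 * n) E ≠ 0 := right_ne_zero_of_mul hE
      rcases Int.emod_two_eq_zero_or_one E with h3 | h3
      · refine ⟨E / 2, by omega, ?_, by omega⟩
        by_contra h4
        apply h2
        rw [show E = 2 * (E / 2) by omega, cmb00]
        by_cases h5 : n < 0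
        · exact h.un _ _ h5
        · exact u_big hε h (by omega)
      · exact absurd (cmb_odd (by omega)) h2) (by
      intro e he1 he2 he
      simp only [add_zero] at he ⊢
      rw [cmb00] at he
      have h2 : u n e ≠ 0 := right_ne_zero_of_mul he
      refine ⟨by omega, ?_⟩
      by_contra h3
      exact h2 (u_big hε h (by omega)))
  rw [h1]
  refine sum_congr rfl fun e _ => ?_
  rw [add_zero, cmb00]

/-- sums over odd rows -/
theorem sum_odd (hε : ε = 1 ∨ ε = -1) {Q : ℝ} (h : Pr2 ε Q u v) (c : ℤ → ℝ) (n : ℤ) :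
    ∑ E ∈ Icc (-(2 * n + 1)) (2 * (2 * n + 1)), c E * cmb g u v (2 * n + 1) E =
      ∑ e ∈ Icc (-n) (3 * n + 2), c (2 * e - 1) * (g * v n e) := by
  have h1 := sum_two (fun E => c E * cmb g u v (2 * n + 1) E) (-1) (-n) (3 * n + 2)
    (-(2 * n + 1)) (2 * (2 * n + 1)) (by
      intro E hE1 hE2 hE
      have h2 : cmb g u v (2 * n + 1) E ≠ 0 := right_ne_zero_of_mul hE
      rcases Int.emod_two_eq_zero_or_one E with h3 | h3
      · exact absurd (cmb_odd (by omega)) h2
      · refine ⟨(E + 1) / 2, by omega, ?_, by omega⟩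
        by_contra h4
        apply h2
        rw [show E = 2 * ((E + 1) / 2) - 1 by omega, cmb11]
        by_cases h5 : n < 0
        · rw [h.vn _ _ h5, mul_zero]
        · rw [v_big hε h (by omega), mul_zero]) (by
      intro e he1 he2 he
      simp only [← sub_eq_add_neg] at he ⊢
      rw [cmb11] at he
      have h2 : v n e ≠ 0 := right_ne_zero_of_mul (right_ne_zero_of_mul he)
      refine ⟨by omega, ?_⟩
      by_contra h3
      exact h2 (v_big hε h (by omega)))
  rw [h1]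
  refine sum_congr rfl fun e _ => ?_
  rw [← sub_eq_add_neg, cmb11]

theorem lev_cmb (hε : ε = 1 ∨ ε = -1) (h : Pr2 ε (g ^ 2) u v) : Lev ε g 1 (cmb g u v) where
  fn := by
    refine cases2 _ (fun n e hN => ?_) (fun n e hN => ?_) (fun N E ho _ => cmb_odd ho)
    · rw [cmb00]
      exact h.un _ _ (by omega)
    · rw [cmb11, h.vn _ _ (by omega), mul_zero]
  fs := by
    refine cases2 _ (fun n e hN => ?_) (fun n e hN => ?_) (fun N E ho _ => cmb_odd ho)
    · rw [cmb00]
      exact h.us _ _ (by omega)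
    · rw [cmb11, h.vs _ _ (by omega), mul_zero]
  fp := fun N E ho => cmb_odd ho
  tau := by
    have h0 := eps_ne hε
    refine cases2 _ (fun n e => ?_) (fun n e => ?_) (fun N E ho => ?_)
    · rw [show 2 * (2 * n) - 2 * e = 2 * (2 * n - e) by ring,
        show 3 * (2 * n) - 2 * (2 * e) = 2 * (3 * n - 2 * e) by ring, cmb00, cmb00,
        show (2 * e - 2 * n) / 2 = e - n by omega]
      have h1 := h.ua n (2 * n - e)
      rw [show 2 * n - (2 * n - e) = e by ring, show 2 * (2 * n - e) - n = 3 * n - 2 * e by ring]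
        at h1
      rw [show e - n = (e - 2 * n) + n by ring, zpow_add₀ h0, mul_assoc, h1, ← mul_assoc,
        ← zpow_add₀ h0, show e - 2 * n + (2 * n - e) = 0 by ring, zpow_zero, one_mul]
    · rw [show 2 * (2 * n + 1) - (2 * e - 1) = 2 * (2 * n + 1 - e) + 1 by ring,
        show 3 * (2 * n + 1) - 2 * (2 * e - 1) = 2 * (3 * n - 2 * e + 3) - 1 by ring, cmb11, cmb11,
        show (2 * e - 1 - (2 * n + 1)) / 2 = e - n - 1 by omega]
      have h1 := h.va n (2 * n + 1 - e)
      rw [show 2 * n + 1 - (2 * n + 1 - e) = e by ring,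
        show 2 * (2 * n + 1 - e) + 1 - n = 3 * n - 2 * e + 3 by ring] at h1
      have h2 : v (2 * n + 1 - e) (3 * n - 2 * e + 3) = ε ^ (e - n - 1) * v n e := by
        rw [show e - n - 1 = (e - (2 * n + 1)) + n by ring, zpow_add₀ h0, mul_assoc, h1,
          ← mul_assoc, ← zpow_add₀ h0, show e - (2 * n + 1) + (2 * n + 1 - e) = 0 by ring,
          zpow_zero, one_mul]
      rw [h2]
      ring
    · rw [cmb_odd ho, cmb_odd (by omega), mul_zero]
  sym := by
    refine cases2 _ (fun n e => ?_) (fun n e => ?_) (fun N E ho => ?_)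
    · rw [show 2 * n - 1 = 2 * (n - 1) + 1 by ring, show 2 * e - 1 + 2 = 2 * (e + 1) - 1 by ring,
        show 2 * e - 1 = 2 * (e - 1) + 1 by ring, show 2 * (n - 1) + 1 + 2 = 2 * (n + 1) - 1 by ring,
        cmb00, cmb00, cmb11, cmb11]
      have h1 := h.A n e
      linear_combination h1
    · obtain ⟨e', rfl⟩ : ∃ e', e = e' + 1 := ⟨e - 1, by ring⟩
      have h1 := h.B n e'
      rw [show 2 * n + 1 - 1 = 2 * n by ring,
        show 2 * (e' + 1) - 1 - 1 + 2 = 2 * (e' + 1) by ring,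
        show 2 * (e' + 1) - 1 - 1 = 2 * e' by ring, show 2 * n + 2 = 2 * (n + 1) by ring, cmb11,
        cmb00, cmb00, show 2 * (e' + 1) - 1 = 2 * e' + 1 by ring,
        show 2 * n + 1 = 2 * (n + 1) - 1 by ring, cmb11]
      linear_combination (-g) * h1
    · rw [cmb_odd ho, cmb_odd (by omega), cmb_odd (by omega), cmb_odd (by omega)]
  nor := by
    intro N
    rcases Int.emod_two_eq_zero_or_one N with h1 | h1
    · obtain ⟨n, rfl⟩ : ∃ n, N = 2 * n := ⟨N / 2, by omega⟩
      have h2 := sum_even (g := g) hε h (fun _ => 1) n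
      simp only [one_mul] at h2
      rw [h2, h.nu]
      by_cases h3 : n = 0
      · rw [if_pos h3, if_pos (by omega)]
      · rw [if_neg h3, if_neg (by omega)]
    · obtain ⟨n, rfl⟩ : ∃ n, N = 2 * n + 1 := ⟨N / 2, by omega⟩
      have h2 := sum_odd (g := g) hε h (fun _ => 1) n
      simp only [one_mul] at h2
      rw [h2, ← mul_sum, h.nv, mul_zero, if_neg (by omega)]

theorem t_cmb : S_cmb := by
  intro ε g u v hε hg h
  refine ⟨lev_cmb hε h, fun n => ⟨?_, ?_⟩⟩
  · unfold dl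
    have h2 := sum_even (g := g) hε h (fun E => (E : ℝ)) n
    rw [h2, mul_neg, mul_sum]
    refine congrArg _ (sum_congr rfl fun e _ => ?_)
    push_cast
    ring
  · unfold dl
    have h2 := sum_odd (g := g) hε h (fun E => (E : ℝ)) n
    rw [h2, mul_neg, mul_sum]
    refine congrArg _ ?_
    have h3 := h.nv n
    have h4 : ∑ e ∈ Icc (-n) (3 * n + 2), ((2 * e - 1 : ℤ) : ℝ) * (g * v n e) =
        ∑ e ∈ Icc (-n) (3 * n + 2), 2 * g * ((e : ℝ) * v n e) -
          g * ∑ e ∈ Icc (-n) (3 * n + 2), v n e := by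
      rw [mul_sum, ← sum_sub_distrib]
      refine sum_congr rfl fun e _ => ?_
      push_cast
      ring
    rw [h4, h3, mul_zero, sub_zero]

end Pool.Agent.H914.EX
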